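import Mathlib.Algebra.Algebra.NonUnitalSubalgebra
import Mathlib.LinearAlgebra.Eigenspace.Basic
import Mathlib.Tactic

/-! # A nine-dimensional commutative algebra

Basis `e i j` (`i j : Bool`), `P i`, `W i` (`i : Bool`), `Z`, with products
`e i j * e i j = e i j`, `e i j * e i (!j) = P i`,
`e i j * P i = -r s • e i (!j) + (r + s) • P i`, `P i * P i = W i`,
`W false * W true = Z`, and all other products of basis elements zero. -/

namespace Pool.Agent.Q111.Axial

variable {F : Type*} [Field F]

/-- The underlying vector space of the algebra. -/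
@[ext]
structure Alg (F : Type*) (r s : F) where
  ax : Bool → Bool → F
  p : Bool → F
  w : Bool → F
  z : F

variable {r s : F}

namespace Alg

instance : Zero (Alg F r s) := ⟨⟨0, 0, 0, 0⟩⟩
instance : Add (Alg F r s) := ⟨fun x y => ⟨x.ax + y.ax, x.p + y.p, x.w + y.w, x.z + y.z⟩⟩
instance : Neg (Alg F r s) := ⟨fun x => ⟨-x.ax, -x.p, -x.w, -x.z⟩⟩
instance : SMul F (Alg F r s) := ⟨fun c x => ⟨c • x.ax, c • x.p, c • x.w, c * x.z⟩⟩
instance : Mul (Alg F r s) := ⟨fun x y =>
  ⟨fun i j => x.ax i j * y.ax i j - r * s * (x.ax i (!j) * y.p i + x.p i * y.ax i (!j)),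
   fun i => x.ax i false * y.ax i true + x.ax i true * y.ax i false +
      (r + s) * (x.ax i false * y.p i + x.p i * y.ax i false + x.ax i true * y.p i +
        x.p i * y.ax i true),
   fun i => x.p i * y.p i,
   x.w false * y.w true + x.w true * y.w false⟩⟩

@[simp] lemma ax_zero (i j) : (0 : Alg F r s).ax i j = 0 := rfl
@[simp] lemma p_zero (i) : (0 : Alg F r s).p i = 0 := rfl
@[simp] lemma w_zero (i) : (0 : Alg F r s).w i = 0 := rfl
@[simp] lemma z_zero : (0 : Alg F r s).z = 0 := rfl
@[simp] lemma ax_add (x y : Alg F r s) (i j) : (x + y).ax i j = x.ax i j + y.ax i j := rfl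
@[simp] lemma p_add (x y : Alg F r s) (i) : (x + y).p i = x.p i + y.p i := rfl
@[simp] lemma w_add (x y : Alg F r s) (i) : (x + y).w i = x.w i + y.w i := rfl
@[simp] lemma z_add (x y : Alg F r s) : (x + y).z = x.z + y.z := rfl
@[simp] lemma ax_neg (x : Alg F r s) (i j) : (-x).ax i j = -x.ax i j := rfl
@[simp] lemma p_neg (x : Alg F r s) (i) : (-x).p i = -x.p i := rfl
@[simp] lemma w_neg (x : Alg F r s) (i) : (-x).w i = -x.w i := rfl
@[simp] lemma z_neg (x : Alg F r s) : (-x).z = -x.z := rfl
@[simp] lemma ax_smul (c : F) (x : Alg F r s) (i j) : (c • x).ax i j = c * x.ax i j := rfl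
@[simp] lemma p_smul (c : F) (x : Alg F r s) (i) : (c • x).p i = c * x.p i := rfl
@[simp] lemma w_smul (c : F) (x : Alg F r s) (i) : (c • x).w i = c * x.w i := rfl
@[simp] lemma z_smul (c : F) (x : Alg F r s) : (c • x).z = c * x.z := rfl
@[simp] lemma ax_mul (x y : Alg F r s) (i j) : (x * y).ax i j =
    x.ax i j * y.ax i j - r * s * (x.ax i (!j) * y.p i + x.p i * y.ax i (!j)) := rfl
@[simp] lemma p_mul (x y : Alg F r s) (i) : (x * y).p i =
    x.ax i false * y.ax i true + x.ax i true * y.ax i false +
      (r + s) * (x.ax i false * y.p i + x.p i * y.ax i false + x.ax i true * y.p i +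
        x.p i * y.ax i true) := rfl
@[simp] lemma w_mul (x y : Alg F r s) (i) : (x * y).w i = x.p i * y.p i := rfl
@[simp] lemma z_mul (x y : Alg F r s) : (x * y).z =
    x.w false * y.w true + x.w true * y.w false := rfl

omit [Field F] in
lemma ext' {x y : Alg F r s} (h1 : ∀ i j, x.ax i j = y.ax i j) (h2 : ∀ i, x.p i = y.p i)
    (h3 : ∀ i, x.w i = y.w i) (h4 : x.z = y.z) : x = y :=
  Alg.ext (funext fun i => funext fun j => h1 i j) (funext h2) (funext h3) h4

instance : AddCommGroup (Alg F r s) where
  add_assoc x y z := ext' (by simp [add_assoc]) (by simp [add_assoc]) (by simp [add_assoc])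
    (by simp [add_assoc])
  zero_add x := ext' (by simp) (by simp) (by simp) (by simp)
  add_zero x := ext' (by simp) (by simp) (by simp) (by simp)
  add_comm x y := ext' (by simp [add_comm]) (by simp [add_comm]) (by simp [add_comm])
    (by simp [add_comm])
  neg_add_cancel x := ext' (by simp) (by simp) (by simp) (by simp)
  nsmul := nsmulRec
  zsmul := zsmulRec

instance : NonUnitalNonAssocCommRing (Alg F r s) where
  left_distrib x y z := ext' (by intros; simp; ring) (by intros; simp; ring)
    (by intros; simp; ring) (by simp; ring)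
  right_distrib x y z := ext' (by intros; simp; ring) (by intros; simp; ring)
    (by intros; simp; ring) (by simp; ring)
  zero_mul x := ext' (by intros; simp) (by intros; simp) (by intros; simp) (by simp)
  mul_zero x := ext' (by intros; simp) (by intros; simp) (by intros; simp) (by simp)
  mul_comm x y := ext' (by intros; simp; ring) (by intros; simp; ring)
    (by intros; simp; ring) (by simp; ring)

instance : Module F (Alg F r s) where
  one_smul x := ext' (by simp) (by simp) (by simp) (by simp)
  mul_smul a b x := ext' (by simp [mul_assoc]) (by simp [mul_assoc]) (by simp [mul_assoc])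
    (by simp [mul_assoc])
  smul_zero a := ext' (by simp) (by simp) (by simp) (by simp)
  smul_add a x y := ext' (by simp [mul_add]) (by simp [mul_add]) (by simp [mul_add])
    (by simp [mul_add])
  add_smul a b x := ext' (by simp [add_mul]) (by simp [add_mul]) (by simp [add_mul])
    (by simp [add_mul])
  zero_smul x := ext' (by simp) (by simp) (by simp) (by simp)

instance : IsScalarTower F (Alg F r s) (Alg F r s) where
  smul_assoc a x y := by
    simp only [smul_eq_mul]
    exact ext' (by intros; simp; ring) (by intros; simp; ring)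
      (by intros; simp; ring) (by simp; ring)

instance : SMulCommClass F (Alg F r s) (Alg F r s) where
  smul_comm a x y := by
    simp only [smul_eq_mul]
    exact ext' (by intros; simp; ring) (by intros; simp; ring)
      (by intros; simp; ring) (by simp; ring)

/-- the axes -/
def e (F : Type*) [Field F] (r s : F) (i j : Bool) : Alg F r s :=
  ⟨fun k l => if k = i ∧ l = j then 1 else 0, 0, 0, 0⟩

/-- `P i` -/
def P (F : Type*) [Field F] (r s : F) (i : Bool) : Alg F r s :=
  ⟨0, fun k => if k = i then 1 else 0, 0, 0⟩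

/-- `W i` -/
def W (F : Type*) [Field F] (r s : F) (i : Bool) : Alg F r s :=
  ⟨0, 0, fun k => if k = i then 1 else 0, 0⟩

/-- `Z` -/
def Z (F : Type*) [Field F] (r s : F) : Alg F r s := ⟨0, 0, 0, 1⟩

end Alg

end Pool.Agent.Q111.Axial
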