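import Mathlib.Algebra.Algebra.NonUnitalSubalgebra
import Mathlib.LinearAlgebra.Eigenspace.Basic
import Mathlib.Combinatorics.SimpleGraph.Connectivity.Connected
import Mathlib.Tactic

/-! # Primitive axial algebras -/

namespace Pool.Agent.Q111.Axial

/-- A fusion law over the field `F`: a set `carrier ⊆ F` containing `1` and a map
`star : carrier × carrier → 2 ^ carrier`. -/
structure FusionLaw (F : Type*) [Field F] where
  /-- the set `𝓕` -/
  carrier : Set F
  one_mem : (1 : F) ∈ carrier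
  /-- the map `⋆` (only its values on `carrier` matter) -/
  star : F → F → Set F
  star_subset : ∀ x ∈ carrier, ∀ y ∈ carrier, star x y ⊆ carrier

/-- A fusion law is Seress if `0 ∈ 𝓕` and `0 ⋆ x ⊆ {x}`, `1 ⋆ x ⊆ {x}` for all `x ∈ 𝓕`. -/
def FusionLaw.Seress {F : Type*} [Field F] (Φ : FusionLaw F) : Prop :=
  (0 : F) ∈ Φ.carrier ∧ ∀ x ∈ Φ.carrier, Φ.star 0 x ⊆ {x} ∧ Φ.star 1 x ⊆ {x} ∧
    Φ.star x 0 ⊆ {x} ∧ Φ.star x 1 ⊆ {x}

section

variable {F A : Type*} [Field F] [NonUnitalNonAssocCommRing A] [Module F A]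
  [SMulCommClass F A A]

/-- The eigenspace `A_x(a) = {v | a v = x v}`. -/
def eig (a : A) (x : F) : Submodule F A where
  carrier := {v | a * v = x • v}
  add_mem' := fun {v w} hv hw => by
    simp only [Set.mem_ofPred_eq] at hv hw ⊢
    rw [mul_add, hv, hw, smul_add]
  zero_mem' := by simp
  smul_mem' := fun c v hv => by
    simp only [Set.mem_ofPred_eq] at hv ⊢
    rw [mul_smul_comm, hv, smul_comm]

/-- Primitive axes for the fusion law `Φ`. -/
structure IsPrimitiveAxis (Φ : FusionLaw F) (a : A) : Prop where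
  idem : a * a = a
  ne_zero : a ≠ 0
  /-- the sum of the eigenspaces `A_x(a)`, `x ∈ 𝓕`, is direct … -/
  direct : iSupIndep fun x : Φ.carrier => (eig a (x : F) : Submodule F A)
  /-- … and equal to `A` -/
  spans : ⨆ x ∈ Φ.carrier, (eig a x : Submodule F A) = ⊤
  fusion : ∀ x ∈ Φ.carrier, ∀ y ∈ Φ.carrier, ∀ v ∈ eig a x, ∀ w ∈ eig a y,
    v * w ∈ ⨆ z ∈ Φ.star x y, (eig a z : Submodule F A)
  primitive : ∀ v : A, v ∈ eig a (1 : F) ↔ ∃ c : F, v = c • a

end

/-- `(A, X)` is a primitive axial algebra for the fusion law `Φ`: `X` consists of primitive axes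
and generates `A`. -/
structure IsPrimitiveAxial {F A : Type*} [Field F] [NonUnitalNonAssocCommRing A] [Module F A]
    [IsScalarTower F A A] [SMulCommClass F A A] (Φ : FusionLaw F) (X : Set A) : Prop where
  axes : ∀ a ∈ X, IsPrimitiveAxis Φ a
  generates : NonUnitalAlgebra.adjoin F X = ⊤

/-- The non-annihilation graph on `X`: distinct `a`, `b` are joined exactly when `a b ≠ 0`. -/
def graph {A : Type*} [NonUnitalNonAssocCommRing A] (X : Set A) : SimpleGraph X where
  Adj a b := a ≠ b ∧ (a : A) * (b : A) ≠ 0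
  symm := ⟨fun a b h => ⟨h.1.symm, by rw [mul_comm]; exact h.2⟩⟩
  loopless := ⟨fun a h => h.1 rfl⟩

/-- A direct sum decomposition of `A` with `k` summands: nonzero ideals `I 1, …, I k` with
`I i I j = 0` for `i ≠ j` whose internal direct sum is `A`. -/
structure IsDecomposition {F A : Type*} [Field F] [NonUnitalNonAssocCommRing A] [Module F A]
    {k : ℕ} (I : Fin k → Submodule F A) : Prop where
  ne_bot : ∀ i, I i ≠ ⊥
  ideal : ∀ i, ∀ x ∈ I i, ∀ y : A, y * x ∈ I i
  orth : ∀ i j, i ≠ j → ∀ x ∈ I i, ∀ y ∈ I j, x * y = 0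
  internal : DirectSum.IsInternal I

/-- `A` is indecomposable: it is nonzero and has no direct sum decomposition with at least two
summands. -/
def Indecomposable (F A : Type*) [Field F] [NonUnitalNonAssocCommRing A] [Module F A] : Prop :=
  Nontrivial A ∧ ∀ (k : ℕ) (I : Fin k → Submodule F A), IsDecomposition I → k < 2

end Pool.Agent.Q111.Axial
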