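import Pool.Agent.Q111.Axial.Defs
import Pool.Agent.Q111.Axial.Alg

/-! # An indecomposable primitive axial algebra with disconnected non-annihilation graph -/

namespace Pool.Agent.Q111.Axial

open Alg

section General

variable {F A : Type*} [Field F] [NonUnitalNonAssocCommRing A] [Module F A]
  [SMulCommClass F A A]

lemma mem_eig {a v : A} {x : F} : v ∈ eig a x ↔ a * v = x • v := Iff.rfl

lemma eig_indep [IsScalarTower F A A] (a : A) (S : Set F) :
    iSupIndep fun x : S => (eig a (x : F) : Submodule F A) := by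
  have h := Module.End.eigenspaces_iSupIndep (LinearMap.mulLeft F a)
  have h2 : iSupIndep fun x : F => (eig a x : Submodule F A) := by
    convert h using 2
    ext v
    rw [mem_eig, Module.End.mem_eigenspace_iff, LinearMap.mulLeft_apply]
  exact h2.comp Subtype.val_injective

end General

variable {F : Type*} [Field F] {r s : F}

lemma bool_all {P : Bool → Prop} (i : Bool) : (∀ k, P k) ↔ P i ∧ P (!i) := by
  cases i <;> simp [Bool.forall_bool, and_comm]

section coords

variable (i j : Bool) (x : Alg F r s)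

lemma em1 : (e F r s i j * x).ax i j = x.ax i j := by simp [e]
lemma em2 : (e F r s i j * x).ax i (!j) = -(r * s * x.p i) := by simp [e]
lemma em3 (l : Bool) : (e F r s i j * x).ax (!i) l = 0 := by simp [e]
lemma em4 : (e F r s i j * x).p i = x.ax i (!j) + (r + s) * x.p i := by
  cases j <;> simp [e]
lemma em5 : (e F r s i j * x).p (!i) = 0 := by simp [e]
lemma em6 (k : Bool) : (e F r s i j * x).w k = 0 := by simp [e]
lemma em7 : (e F r s i j * x).z = 0 := by simp [e]

end coords

omit [Field F] in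
lemma ext'' (i j : Bool) {x y : Alg F r s} (h1 : x.ax i j = y.ax i j)
    (h2 : x.ax i (!j) = y.ax i (!j)) (h3 : ∀ l, x.ax (!i) l = y.ax (!i) l)
    (h4 : x.p i = y.p i) (h5 : x.p (!i) = y.p (!i)) (h6 : ∀ k, x.w k = y.w k)
    (h7 : x.z = y.z) : x = y :=
  ext' ((bool_all i).2 ⟨(bool_all j).2 ⟨h1, h2⟩, h3⟩) ((bool_all i).2 ⟨h4, h5⟩) h6 h7

lemma mem_e {i j : Bool} {x : Alg F r s} {c : F} : x ∈ eig (e F r s i j) c ↔
    (x.ax i j = c * x.ax i j) ∧ (-(r * s * x.p i) = c * x.ax i (!j)) ∧
    (∀ l, 0 = c * x.ax (!i) l) ∧ (x.ax i (!j) + (r + s) * x.p i = c * x.p i) ∧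
    (0 = c * x.p (!i)) ∧ (∀ k, 0 = c * x.w k) ∧ 0 = c * x.z := by
  rw [mem_eig]
  constructor
  · intro h
    refine ⟨?_, ?_, fun l => ?_, ?_, ?_, fun k => ?_, ?_⟩
    · rw [← ax_smul, ← h, em1]
    · rw [← ax_smul, ← h, em2]
    · rw [← ax_smul, ← h, em3]
    · rw [← em4, h, p_smul]
    · rw [← p_smul, ← h, em5]
    · rw [← w_smul, ← h, em6]
    · rw [← z_smul, ← h, em7]
  · rintro ⟨h1, h2, h3, h4, h5, h6, h7⟩
    refine ext'' i j ?_ ?_ (fun l => ?_) ?_ ?_ (fun k => ?_) ?_
    · rw [em1, ax_smul]; exact h1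
    · rw [em2, ax_smul]; exact h2
    · rw [em3, ax_smul]; exact h3 l
    · rw [em4, p_smul]; exact h4
    · rw [em5, p_smul]; exact h5
    · rw [em6, w_smul]; exact h6 k
    · rw [em7, z_smul]; exact h7

lemma mem_e_zero (hr : r ≠ 0) (hs : s ≠ 0) {i j : Bool} {x : Alg F r s} :
    x ∈ eig (e F r s i j) (0 : F) ↔ (∀ l, x.ax i l = 0) ∧ x.p i = 0 := by
  rw [mem_e, bool_all (P := fun l => x.ax i l = 0) j]
  simp only [zero_mul]
  constructor
  · rintro ⟨h1, h2, -, h4, -⟩
    have h5 : x.p i = 0 := by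
      have : r * s * x.p i = 0 := by linear_combination -h2
      exact (mul_eq_zero.1 this).resolve_left (mul_ne_zero hr hs)
    rw [h5] at h4
    exact ⟨⟨h1, by linear_combination h4⟩, h5⟩
  · rintro ⟨⟨h1, h2⟩, h3⟩
    rw [h1, h2, h3]
    simp

lemma mem_e_one (hr : r ≠ 1) (hs : s ≠ 1) {i j : Bool} {x : Alg F r s} :
    x ∈ eig (e F r s i j) (1 : F) ↔ ∃ c : F, x = c • e F r s i j := by
  constructor
  · rw [mem_e]
    simp only [one_mul]
    rintro ⟨-, h2, h3, h4, h5, h6, h7⟩
    have h8 : x.p i = 0 := by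
      have : (r - 1) * (s - 1) * x.p i = 0 := by linear_combination -h2 - h4
      exact (mul_eq_zero.1 this).resolve_left
        (mul_ne_zero (sub_ne_zero.2 hr) (sub_ne_zero.2 hs))
    rw [h8] at h2
    refine ⟨x.ax i j, ext'' i j ?_ ?_ (fun l => ?_) ?_ ?_ (fun k => ?_) ?_⟩
    · simp [e]
    · rw [← h2]; simp [e]
    · rw [← h3 l]; simp [e]
    · rw [h8]; simp [e]
    · rw [← h5]; simp [e]
    · rw [← h6]; simp [e]
    · rw [← h7]; simp [e]
  · rintro ⟨c, rfl⟩
    rw [mem_e]
    simp [e]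

/-- the vectors in `A_t`, `t = r` (then `t' = s`) or `t = s` (then `t' = r`) -/
lemma mem_e_r {t t' : F} (ht0 : t ≠ 0) (ht1 : t ≠ 1) (h : t * t' = r * s) (h' : t + t' = r + s)
    {i j : Bool} {x : Alg F r s} :
    x ∈ eig (e F r s i j) t ↔ x.ax i j = 0 ∧ x.ax i (!j) = -t' * x.p i ∧
      (∀ l, x.ax (!i) l = 0) ∧ x.p (!i) = 0 ∧ (∀ k, x.w k = 0) ∧ x.z = 0 := by
  rw [mem_e]
  constructor
  · rintro ⟨h1, h2, h3, h4, h5, h6, h7⟩
    refine ⟨?_, ?_, fun l => ?_, ?_, fun k => ?_, ?_⟩
    · have : (t - 1) * x.ax i j = 0 := by linear_combination -h1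
      exact (mul_eq_zero.1 this).resolve_left (sub_ne_zero.2 ht1)
    · linear_combination h4 + h' * x.p i
    · exact (mul_eq_zero.1 (h3 l).symm).resolve_left ht0
    · exact (mul_eq_zero.1 h5.symm).resolve_left ht0
    · exact (mul_eq_zero.1 (h6 k).symm).resolve_left ht0
    · exact (mul_eq_zero.1 h7.symm).resolve_left ht0
  · rintro ⟨h1, h2, h3, h5, h6, h7⟩
    refine ⟨?_, ?_, fun l => ?_, ?_, ?_, fun k => ?_, ?_⟩
    · rw [h1]; ring
    · rw [h2]; linear_combination x.p i * h
    · rw [h3, mul_zero]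
    · rw [h2]; linear_combination - x.p i * h'
    · rw [h5, mul_zero]
    · rw [h6, mul_zero]
    · rw [h7, mul_zero]

/-- the fusion law -/
def law (r s : F) : FusionLaw F where
  carrier := {0, 1, r, s}
  one_mem := by simp
  star x y := {z | z ∈ ({0, 1, r, s} : Set F) ∧ (x = 1 → z = y ∧ y ≠ 0) ∧
    (y = 1 → z = x ∧ x ≠ 0) ∧ (x = 0 → z = 0 ∧ y = 0) ∧ (y = 0 → z = 0 ∧ x = 0)}
  star_subset := fun x _ y _ z hz => hz.1

lemma law_seress : (law r s).Seress := by
  refine ⟨by simp [law], fun x _ => ⟨?_, ?_, ?_, ?_⟩⟩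
  · rintro z ⟨-, -, -, h, -⟩
    obtain ⟨h1, h2⟩ := h rfl
    rw [h1, h2]; rfl
  · rintro z ⟨-, h, -⟩
    exact (h rfl).1
  · rintro z ⟨-, -, -, -, h⟩
    obtain ⟨h1, h2⟩ := h rfl
    rw [h1, h2]; rfl
  · rintro z ⟨-, -, h, -⟩
    exact (h rfl).1

section Main

variable (hr0 : r ≠ 0) (hr1 : r ≠ 1) (hs0 : s ≠ 0) (hs1 : s ≠ 1) (hrs : r ≠ s)

include hr0 hr1 hs0 hs1 hrs

lemma spans (i j : Bool) :
    ⨆ x ∈ (law r s).carrier, (eig (e F r s i j) x : Submodule F (Alg F r s)) = ⊤ := by
  rw [eq_top_iff]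
  intro x _
  have hrs' : r - s ≠ 0 := sub_ne_zero.2 hrs
  set α : F := (x.ax i (!j) + r * x.p i) / (r - s) with hα
  set β : F := -(x.ax i (!j) + s * x.p i) / (r - s) with hβ
  have e1 : x.p i = α + β := by
    rw [hα, hβ]; field_simp; ring
  have e2 : x.ax i (!j) = -s * α - r * β := by
    rw [hα, hβ]; field_simp; ring
  let x1 : Alg F r s := x.ax i j • e F r s i j
  let xr : Alg F r s := α • (P F r s i - s • e F r s i (!j))
  let xs : Alg F r s := β • (P F r s i - r • e F r s i (!j))
  have hmem : ∀ (c : F) (hc : c ∈ (law r s).carrier) (v : Alg F r s), v ∈ eig (e F r s i j) c →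
      v ∈ ⨆ x ∈ (law r s).carrier, (eig (e F r s i j) x : Submodule F (Alg F r s)) :=
    fun c hc v hv => Submodule.mem_iSup_of_mem c (Submodule.mem_iSup_of_mem hc hv)
  have h1 : x1 ∈ eig (e F r s i j) (1 : F) := (mem_e_one hr1 hs1).2 ⟨_, rfl⟩
  have h2 : xr ∈ eig (e F r s i j) r := by
    rw [mem_e_r hr0 hr1 (t' := s) rfl rfl]
    cases i <;> cases j <;> simp [xr, e, P, sub_eq_add_neg, mul_comm]
  have h3 : xs ∈ eig (e F r s i j) s := by
    rw [mem_e_r hs0 hs1 (t' := r) (mul_comm _ _) (add_comm _ _)]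
    cases i <;> cases j <;> simp [xs, e, P, sub_eq_add_neg, mul_comm]
  have h4 : x - x1 - xr - xs ∈ eig (e F r s i j) (0 : F) := by
    rw [mem_e_zero hr0 hs0, bool_all (P := fun l => (x - x1 - xr - xs).ax i l = 0) j]
    refine ⟨⟨?_, ?_⟩, ?_⟩
    · cases i <;> cases j <;> simp [x1, xr, xs, e, P, sub_eq_add_neg]
    · have : (x - x1 - xr - xs).ax i (!j) = x.ax i (!j) - (-s * α - r * β) := by
        cases i <;> cases j <;> simp [x1, xr, xs, e, P, sub_eq_add_neg] <;> ring
      rw [this, e2]; ring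
    · have : (x - x1 - xr - xs).p i = x.p i - (α + β) := by
        cases i <;> cases j <;> simp [x1, xr, xs, e, P, sub_eq_add_neg] <;> ring
      rw [this, e1]; ring
  have h5 : x = x1 + xr + xs + (x - x1 - xr - xs) := by abel
  rw [h5]
  exact Submodule.add_mem _ (Submodule.add_mem _ (Submodule.add_mem _
    (hmem 1 (by simp [law]) _ h1) (hmem r (by simp [law]) _ h2)) (hmem s (by simp [law]) _ h3))
    (hmem 0 (by simp [law]) _ h4)

lemma zero_mul_r {t t' : F} (ht0 : t ≠ 0) (ht1 : t ≠ 1) (h : t * t' = r * s)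
    (h' : t + t' = r + s) {i j : Bool} {v w : Alg F r s} (hv : v ∈ eig (e F r s i j) (0 : F))
    (hw : w ∈ eig (e F r s i j) t) : v * w = 0 := by
  rw [mem_e_zero hr0 hs0] at hv
  rw [mem_e_r ht0 ht1 h h'] at hw
  obtain ⟨a1, a2⟩ := hv
  obtain ⟨b1, b2, b3, b4, b5, b6⟩ := hw
  refine ext'' i j ?_ ?_ (fun l => ?_) ?_ ?_ (fun k => ?_) ?_
  · simp [a1, a2]
  · simp [a1, a2]
  · simp [b3, b4]
  · simp [a1, a2]
  · simp [b3, b4]
  · have : v.p k * w.p k = 0 := by
      cases i <;> cases k <;> simp_all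
    simpa using this
  · simp [b5]

lemma isAxis (i j : Bool) : IsPrimitiveAxis (law r s) (e F r s i j) where
  idem := by
    refine ext'' i j ?_ ?_ (fun l => ?_) ?_ ?_ (fun k => ?_) ?_ <;> simp [e]
    cases j <;> simp
  ne_zero := fun h => by
    have := congrArg (fun y : Alg F r s => y.ax i j) h
    simp [e] at this
  direct := eig_indep _ _
  spans := spans hr0 hr1 hs0 hs1 hrs i j
  primitive := fun v => mem_e_one hr1 hs1
  fusion := by
    have hmem : ∀ (S : Set F) (c : F) (hc : c ∈ S) (v : Alg F r s), v ∈ eig (e F r s i j) c →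
        v ∈ ⨆ x ∈ S, (eig (e F r s i j) x : Submodule F (Alg F r s)) :=
      fun S c hc v hv => Submodule.mem_iSup_of_mem c (Submodule.mem_iSup_of_mem hc hv)
    have hone : ∀ x ∈ (law r s).carrier, ∀ v ∈ eig (e F r s i j) (1 : F),
        ∀ w ∈ eig (e F r s i j) x, v * w = 0 ∨ (x ≠ 0 ∧ v * w ∈ eig (e F r s i j) x) := by
      intro x hx v hv w hw
      obtain ⟨c, rfl⟩ := (mem_e_one hr1 hs1).1 hv
      rw [smul_mul_assoc, mem_eig.1 hw]
      by_cases h0 : x = 0
      · left; rw [h0, zero_smul, smul_zero]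
      · right
        exact ⟨h0, Submodule.smul_mem _ _ (Submodule.smul_mem _ _ hw)⟩
    intro x hx y hy v hv w hw
    by_cases hx1 : x = 1
    · subst hx1
      rcases hone y hy v hv w hw with h | ⟨h0, h⟩
      · rw [h]; exact Submodule.zero_mem _
      · refine hmem ((law r s).star 1 y) y ⟨hy, fun _ => ⟨rfl, h0⟩, fun h1 => ⟨h1, one_ne_zero⟩,
          fun h1 => absurd h1 one_ne_zero, fun h1 => absurd h1 h0⟩ _ h
    by_cases hy1 : y = 1
    · subst hy1
      rw [mul_comm]
      rcases hone x hx w hw v hv with h | ⟨h0, h⟩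
      · rw [h]; exact Submodule.zero_mem _
      · refine hmem ((law r s).star x 1) x ⟨hx, fun h1 => ⟨h1, one_ne_zero⟩, fun _ => ⟨rfl, h0⟩,
          fun h1 => absurd h1 h0, fun h1 => absurd h1 one_ne_zero⟩ _ h
    have key : ∀ t ∈ (law r s).carrier, t ≠ 0 → t ≠ 1 → ∀ v ∈ eig (e F r s i j) (0 : F),
        ∀ w ∈ eig (e F r s i j) t, v * w = 0 := by
      intro t ht h0 h1 v hv w hw
      rcases ht with rfl | rfl | rfl | rfl
      · exact absurd rfl h0
      · exact absurd rfl h1
      · exact zero_mul_r hr0 hr1 hs0 hs1 hrs hr0 hr1 rfl rfl hv hw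
      · exact zero_mul_r hr0 hr1 hs0 hs1 hrs hs0 hs1 (mul_comm _ _) (add_comm _ _) hv hw
    by_cases hx0 : x = 0
    · subst hx0
      by_cases hy0 : y = 0
      · subst hy0
        refine hmem ((law r s).star 0 0) 0 ⟨hx, fun h => absurd h.symm one_ne_zero, fun h => absurd h.symm one_ne_zero,
          fun _ => ⟨rfl, rfl⟩, fun _ => ⟨rfl, rfl⟩⟩ _ ?_
        rw [mem_e_zero hr0 hs0] at hv hw ⊢
        obtain ⟨a1, a2⟩ := hv
        obtain ⟨b1, b2⟩ := hw
        exact ⟨fun l => by simp [a1, a2], by simp [a1, a2]⟩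
      · rw [key y hy hy0 hy1 v hv w hw]; exact Submodule.zero_mem _
    by_cases hy0 : y = 0
    · subst hy0
      rw [mul_comm, key x hx hx0 hx1 w hw v hv]; exact Submodule.zero_mem _
    have hstar : (law r s).star x y = (law r s).carrier := by
      ext z
      refine ⟨fun h => h.1, fun h => ⟨h, fun h1 => absurd h1 hx1, fun h1 => absurd h1 hy1,
        fun h1 => absurd h1 hx0, fun h1 => absurd h1 hy0⟩⟩
    rw [hstar, spans hr0 hr1 hs0 hs1 hrs i j]
    trivial

end Main

/-- the set of axes -/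
def X (F : Type*) [Field F] (r s : F) : Set (Alg F r s) := {x | ∃ i j, x = e F r s i j}

lemma e_mul_e (i : Bool) : e F r s i false * e F r s i true = P F r s i := by
  refine ext'' i false ?_ ?_ (fun l => ?_) ?_ ?_ (fun k => ?_) ?_ <;> simp [e, P]

lemma P_mul_P (i : Bool) : P F r s i * P F r s i = W F r s i := by
  refine ext'' i false ?_ ?_ (fun l => ?_) ?_ ?_ ((bool_all i).2 ⟨?_, ?_⟩) ?_ <;> simp [W, P]

lemma W_mul_W : W F r s false * W F r s true = Z F r s := by
  refine ext'' false false ?_ ?_ (fun l => ?_) ?_ ?_ (fun k => ?_) ?_ <;> simp [W, Z]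

lemma decomp (x : Alg F r s) : x = x.ax false false • e F r s false false +
    x.ax false true • e F r s false true + x.ax true false • e F r s true false +
    x.ax true true • e F r s true true + x.p false • P F r s false + x.p true • P F r s true +
    x.w false • W F r s false + x.w true • W F r s true + x.z • Z F r s := by
  refine ext' ?_ ?_ ?_ ?_ <;> simp [e, P, W, Z, Bool.forall_bool]

/-- a subspace closed under multiplication by everything and containing the axes of both blocks -/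
lemma sub_top (S : Submodule F (Alg F r s)) (hS : ∀ x ∈ S, ∀ y ∈ S, x * y ∈ S)
    (he : ∀ i j, e F r s i j ∈ S) : S = ⊤ := by
  rw [eq_top_iff]
  intro x _
  have hP : ∀ i, P F r s i ∈ S := fun i => by rw [← e_mul_e]; exact hS _ (he _ _) _ (he _ _)
  have hW : ∀ i, W F r s i ∈ S := fun i => by rw [← P_mul_P]; exact hS _ (hP _) _ (hP _)
  have hZ : Z F r s ∈ S := by rw [← W_mul_W]; exact hS _ (hW _) _ (hW _)
  rw [decomp x]
  exact Submodule.add_mem _ (Submodule.add_mem _ (Submodule.add_mem _ (Submodule.add_mem _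
    (Submodule.add_mem _ (Submodule.add_mem _ (Submodule.add_mem _ (Submodule.add_mem _
    (S.smul_mem _ (he _ _)) (S.smul_mem _ (he _ _))) (S.smul_mem _ (he _ _)))
    (S.smul_mem _ (he _ _))) (S.smul_mem _ (hP _))) (S.smul_mem _ (hP _)))
    (S.smul_mem _ (hW _))) (S.smul_mem _ (hW _))) (S.smul_mem _ hZ)

lemma generates : NonUnitalAlgebra.adjoin F (X F r s) = ⊤ := by
  have h := sub_top (NonUnitalAlgebra.adjoin F (X F r s)).toSubmodule
    (fun x hx y hy => (NonUnitalAlgebra.adjoin F (X F r s)).mul_mem hx hy)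
    (fun i j => NonUnitalAlgebra.subset_adjoin F ⟨i, j, rfl⟩)
  rw [eq_top_iff]
  intro x _
  have : x ∈ (⊤ : Submodule F (Alg F r s)) := trivial
  rw [← h] at this
  exact this

/-- if `A = I ⊕ J` with ideals `I`, `J` and `I J = 0` then one of them is zero -/
lemma two_summands (hr1 : r ≠ 1) (hs1 : s ≠ 1) {I J : Submodule F (Alg F r s)}
    (hI : ∀ x ∈ I, ∀ y, y * x ∈ I) (hJ : ∀ x ∈ J, ∀ y, y * x ∈ J)
    (hIJ : ∀ x ∈ I, ∀ y ∈ J, x * y = 0) (hc : IsCompl I J) : I = ⊥ ∨ J = ⊥ := by
  have hdis : ∀ x, x ∈ I → x ∈ J → x = 0 := fun x h1 h2 =>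
    Submodule.disjoint_def.1 hc.disjoint x h1 h2
  have ne_e : ∀ i j, e F r s i j ≠ 0 := fun i j h => by
    have := congrArg (fun y : Alg F r s => y.ax i j) h
    simp [e] at this
  have ne_P : ∀ i, P F r s i ≠ 0 := fun i h => by
    have := congrArg (fun y : Alg F r s => y.p i) h
    simp [P] at this
  have ne_Z : Z F r s ≠ 0 := fun h => by
    have := congrArg (fun y : Alg F r s => y.z) h
    simp [Z] at this
  have idem : ∀ i j, e F r s i j * e F r s i j = e F r s i j := fun i j => by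
    refine ext'' i j ?_ ?_ (fun l => ?_) ?_ ?_ (fun k => ?_) ?_ <;> simp [e]
    cases j <;> simp
  -- every axis lies in `I` or in `J`
  have hax : ∀ i j, e F r s i j ∈ I ∨ e F r s i j ∈ J := by
    intro i j
    have htop : e F r s i j ∈ I ⊔ J := by rw [hc.sup_eq_top]; trivial
    obtain ⟨x, hx, y, hy, hxy⟩ := Submodule.mem_sup.1 htop
    have h1 : x * y = 0 := hIJ x hx y hy
    have h2 : y * x = 0 := by rw [mul_comm]; exact h1
    have h3 : (x + y) * (x + y) = x + y := by rw [hxy]; exact idem i j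
    have h4 : x * x - x = y - y * y := by
      rw [mul_add, add_mul, add_mul, h1, h2, add_zero, zero_add] at h3
      have h3' : x * x + y * y = x + y := h3
      calc x * x - x = (x * x + y * y) - x - y * y := by abel
        _ = y - y * y := by rw [h3']; abel
    have h5 : x * x - x = 0 := by
      refine hdis _ (I.sub_mem (hI x hx x) hx) ?_
      rw [h4]; exact J.sub_mem hy (hJ y hy y)
    have h6 : x * x = x := sub_eq_zero.1 h5
    have h7 : e F r s i j * x = (1 : F) • x := by
      rw [← hxy, add_mul, h6, h2, add_zero, one_smul]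
    obtain ⟨c, hc'⟩ := (mem_e_one hr1 hs1).1 (mem_eig.2 h7)
    by_cases h0 : c = 0
    · right
      rw [h0, zero_smul] at hc'
      rw [← hxy, hc', zero_add]; exact hy
    · left
      have : e F r s i j = c⁻¹ • x := by rw [hc', smul_smul, inv_mul_cancel₀ h0, one_smul]
      rw [this]; exact I.smul_mem _ hx
  have main : ∀ {I J : Submodule F (Alg F r s)} (_ : ∀ x ∈ I, ∀ y, y * x ∈ I)
      (_ : ∀ x ∈ J, ∀ y, y * x ∈ J) (_ : ∀ x, x ∈ I → x ∈ J → x = 0)
      (_ : ∀ i j, e F r s i j ∈ I ∨ e F r s i j ∈ J) (_ : e F r s false false ∈ I), I = ⊤ := by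
    intro I J hI hJ hdis hax h0
    have hpair : ∀ i j, e F r s i j ∈ I → e F r s i (!j) ∈ I := by
      intro i j h
      rcases hax i (!j) with h1 | h1
      · exact h1
      · exfalso
        have h2 := hI _ h (e F r s i (!j))
        have h3 := hJ _ h1 (e F r s i j)
        rw [mul_comm] at h2
        have h4 : e F r s i j * e F r s i (!j) = P F r s i := by
          cases j
          · exact e_mul_e i
          · rw [mul_comm]; exact e_mul_e i
        exact ne_P i (by rw [← h4]; exact hdis _ h2 h3)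
    have hpair' : ∀ i j, e F r s i j ∈ J → e F r s i (!j) ∈ J := by
      intro i j h
      rcases hax i (!j) with h1 | h1
      · exfalso
        have h2 := hJ _ h (e F r s i (!j))
        have h3 := hI _ h1 (e F r s i j)
        rw [mul_comm] at h2
        have h4 : e F r s i j * e F r s i (!j) = P F r s i := by
          cases j
          · exact e_mul_e i
          · rw [mul_comm]; exact e_mul_e i
        exact ne_P i (by rw [← h4]; exact hdis _ h3 h2)
      · exact h1
    have hWI : ∀ (I : Submodule F (Alg F r s)) (_ : ∀ x ∈ I, ∀ y, y * x ∈ I) i,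
        e F r s i false ∈ I → W F r s i ∈ I := by
      intro I hI i h
      have h1 := hI _ h (e F r s i true)
      rw [mul_comm, e_mul_e] at h1
      have h2 := hI _ h1 (P F r s i)
      rwa [P_mul_P] at h2
    have h1 : e F r s true false ∈ I := by
      rcases hax true false with h1 | h1
      · exact h1
      · exfalso
        have h2 := hI _ (hWI I hI false h0) (W F r s true)
        have h3 := hJ _ (hWI J hJ true h1) (W F r s false)
        rw [mul_comm] at h2
        rw [W_mul_W] at h2 h3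
        exact ne_Z (hdis _ h2 h3)
    have h2 := hpair _ _ h0
    have h3 := hpair _ _ h1
    refine sub_top I (fun x _ y hy => hI y hy x) ?_
    intro i j
    cases i <;> cases j
    · exact h0
    · exact h2
    · exact h1
    · exact h3
  rcases hax false false with h | h
  · right
    have hI' := main hI hJ hdis hax h
    rw [hI'] at hc
    exact eq_bot_of_top_isCompl hc
  · left
    have hJ' := main hJ hI (fun x h1 h2 => hdis x h2 h1) (fun i j => (hax i j).symm) h
    rw [hJ'] at hc
    exact eq_bot_of_isCompl_top hc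

lemma indecomposable (hr1 : r ≠ 1) (hs1 : s ≠ 1) : Indecomposable F (Alg F r s) := by
  refine ⟨⟨Z F r s, 0, fun h => ?_⟩, fun k I h => ?_⟩
  · have := congrArg (fun y : Alg F r s => y.z) h
    simp [Z] at this
  by_contra hk
  rw [not_lt] at hk
  let i0 : Fin k := ⟨0, by omega⟩
  let i1 : Fin k := ⟨1, by omega⟩
  have h01 : i1 ≠ i0 := fun h => by simpa [i0, i1] using congrArg Fin.val h
  set J : Submodule F (Alg F r s) := ⨆ j, ⨆ _ : j ≠ i0, I j with hJdef
  have hle : ∀ j, j ≠ i0 → I j ≤ J := fun j hj =>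
    le_trans (le_iSup (fun _ : j ≠ i0 => I j) hj) (le_iSup (fun j => ⨆ _ : j ≠ i0, I j) j)
  have hJ : ∀ x ∈ J, ∀ y, y * x ∈ J := by
    intro x hx y
    have : J ≤ J.comap (LinearMap.mulLeft F y) := by
      refine iSup_le fun j => iSup_le fun hj => ?_
      intro z hz
      exact hle j hj (h.ideal j z hz y)
    exact this hx
  have hIJ : ∀ x ∈ I i0, ∀ y ∈ J, x * y = 0 := by
    intro x hx y hy
    have : J ≤ LinearMap.ker (LinearMap.mulLeft F x) := by
      refine iSup_le fun j => iSup_le fun hj => ?_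
      intro z hz
      exact h.orth i0 j (Ne.symm hj) x hx z hz
    exact this hy
  have hc : IsCompl (I i0) J := by
    constructor
    · exact h.internal.submodule_iSupIndep i0
    · rw [codisjoint_iff, eq_top_iff, ← h.internal.submodule_iSup_eq_top]
      refine iSup_le fun j => ?_
      by_cases hj : j = i0
      · rw [hj]; exact le_sup_left
      · exact (hle j hj).trans le_sup_right
  rcases two_summands hr1 hs1 (h.ideal i0) hJ hIJ hc with h2 | h2
  · exact h.ne_bot i0 h2
  · apply h.ne_bot i1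
    rw [eq_bot_iff, ← h2]
    exact hle i1 h01

lemma not_preconnected : ¬ (graph (X F r s)).Preconnected := by
  intro h
  -- the block is constant on connected components
  have hblock : ∀ a b : X F r s, (graph (X F r s)).Adj a b →
      ((∃ j, (a : Alg F r s) = e F r s false j) → ∃ j, (b : Alg F r s) = e F r s false j) := by
    rintro ⟨a, ha⟩ ⟨b, i', j', rfl⟩ ⟨-, hab⟩ ⟨j, hj⟩
    simp only at hj hab ⊢
    subst hj
    cases i' with
    | false => exact ⟨j', rfl⟩
    | true =>
      exfalso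
      apply hab
      refine ext'' false j ?_ ?_ (fun l => ?_) ?_ ?_ (fun k => ?_) ?_ <;> simp [e]
  have hreach : ∀ a b : X F r s, (graph (X F r s)).Reachable a b →
      ((∃ j, (a : Alg F r s) = e F r s false j) → ∃ j, (b : Alg F r s) = e F r s false j) := by
    rintro a b ⟨p⟩
    induction p with
    | nil => exact id
    | cons hadj _ ih => exact fun h1 => ih (hblock _ _ hadj h1)
  obtain ⟨j, hj⟩ := hreach ⟨e F r s false false, false, false, rfl⟩
    ⟨e F r s true false, true, false, rfl⟩ (h _ _) ⟨false, rfl⟩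
  have := congrArg (fun y : Alg F r s => y.ax true false) hj
  simp [e] at this

lemma X_finite : (X F r s).Finite := by
  have : X F r s = Set.range fun q : Bool × Bool => e F r s q.1 q.2 := by
    ext x
    constructor
    · rintro ⟨i, j, rfl⟩; exact ⟨(i, j), rfl⟩
    · rintro ⟨q, rfl⟩; exact ⟨_, _, rfl⟩
  rw [this]
  exact Set.finite_range _

lemma finite : Module.Finite F (Alg F r s) := by
  classical
  let S : Set (Alg F r s) := (Set.range fun q : Bool × Bool => e F r s q.1 q.2) ∪
    (Set.range (P F r s) ∪ (Set.range (W F r s) ∪ {Z F r s}))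
  have hS : S.Finite := (Set.finite_range _).union ((Set.finite_range _).union
    ((Set.finite_range _).union (Set.finite_singleton _)))
  refine ⟨⟨hS.toFinset, ?_⟩⟩
  rw [hS.coe_toFinset, eq_top_iff]
  intro x _
  have he : ∀ i j, e F r s i j ∈ Submodule.span F S := fun i j =>
    Submodule.subset_span (Or.inl ⟨(i, j), rfl⟩)
  have hP : ∀ i, P F r s i ∈ Submodule.span F S := fun i =>
    Submodule.subset_span (Or.inr (Or.inl ⟨i, rfl⟩))
  have hW : ∀ i, W F r s i ∈ Submodule.span F S := fun i =>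
    Submodule.subset_span (Or.inr (Or.inr (Or.inl ⟨i, rfl⟩)))
  have hZ : Z F r s ∈ Submodule.span F S :=
    Submodule.subset_span (Or.inr (Or.inr (Or.inr rfl)))
  rw [decomp x]
  exact Submodule.add_mem _ (Submodule.add_mem _ (Submodule.add_mem _ (Submodule.add_mem _
    (Submodule.add_mem _ (Submodule.add_mem _ (Submodule.add_mem _ (Submodule.add_mem _
    (Submodule.smul_mem _ _ (he _ _)) (Submodule.smul_mem _ _ (he _ _)))
    (Submodule.smul_mem _ _ (he _ _))) (Submodule.smul_mem _ _ (he _ _)))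
    (Submodule.smul_mem _ _ (hP _))) (Submodule.smul_mem _ _ (hP _)))
    (Submodule.smul_mem _ _ (hW _))) (Submodule.smul_mem _ _ (hW _)))
    (Submodule.smul_mem _ _ hZ)

end Pool.Agent.Q111.Axial
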